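import Pool.Agent.W276.GE.Stm

set_option autoImplicit false

open Height NumberField Polynomial

namespace Pool.Agent.W347.GE

open Pool.Agent.W276.GE

theorem root : S_root := by
  intro K _ _ d Z g x hZ hg hgZ hx
  obtain ⟨p, hp⟩ : ∃ p : ℤ[X], p = ∑ i : Fin (d + 1), C (g i) * X ^ (i : ℕ) := ⟨_, rfl⟩
  have hcoef : ∀ i : Fin (d + 1), p.coeff i = g i := by
    intro i
    rw [hp, finsetSum_coeff, Finset.sum_eq_single i]
    · rw [coeff_C_mul_X_pow, if_pos rfl]
    · intro j _ hj
      rw [coeff_C_mul_X_pow, if_neg]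
      intro h
      exact hj (Fin.ext h.symm)
    · intro h
      exact absurd (Finset.mem_univ i) h
  have hcoef0 : ∀ j, ¬ j < d + 1 → p.coeff j = 0 := by
    intro j hj
    rw [hp, finsetSum_coeff]
    refine Finset.sum_eq_zero fun i _ => ?_
    rw [coeff_C_mul_X_pow, if_neg]
    intro h
    exact hj (h ▸ i.2)
  have hle : ∀ j, |p.coeff j| ≤ Z := by
    intro j
    by_cases h : j < d + 1
    · have := hcoef ⟨j, h⟩
      simp only at this
      rw [this]
      exact hgZ _
    · rw [hcoef0 j h]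
      simp
  have hp0 : p ≠ 0 := by
    intro h
    apply hg
    funext i
    rw [← hcoef i, h, coeff_zero]
    rfl
  have haev : aeval x p = 0 := by
    rw [hp, map_sum, ← hx]
    refine Finset.sum_congr rfl fun i _ => ?_
    simp
  obtain ⟨a, ha⟩ : ∃ a, a = p.leadingCoeff := ⟨_, rfl⟩
  have ha0 : a ≠ 0 := by
    rw [ha]
    exact leadingCoeff_ne_zero.2 hp0
  have haK : (a : K) ≠ 0 := by exact_mod_cast ha0
  have haZ : |(a : ℝ)| ≤ Z := by
    have := hle p.natDegree
    rw [ha]
    exact_mod_cast this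
  have hint : IsIntegral ℤ ((a : K) * x) := by
    have := isIntegral_leadingCoeff_smul p x haev
    rw [← ha, zsmul_eq_mul] at this
    exact this
  have hZR : (1 : ℝ) ≤ Z := by exact_mod_cast hZ
  -- archimedean bounds
  have hva : ∀ v : InfinitePlace K, v (a : K) = |(a : ℝ)| := by
    intro v
    rw [← InfinitePlace.norm_embedding_eq v, map_intCast, Complex.norm_intCast]
  have hvx : ∀ v : InfinitePlace K, v x ≤ 2 * Z := by
    intro v
    rw [← InfinitePlace.norm_embedding_eq v]
    have hq0 : p.map (Int.castRingHom ℂ) ≠ 0 := by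
      rw [Ne, Polynomial.map_eq_zero_iff Int.cast_injective]
      exact hp0
    have hroot : (p.map (Int.castRingHom ℂ)).IsRoot (v.embedding x) := by
      have h1 := congrArg v.embedding haev
      rw [map_zero] at h1
      rw [IsRoot, eval_map, ← h1, aeval_def, hom_eval₂]
      congr 1
      exact RingHom.ext_int _ _
    have h2 := hroot.norm_lt_cauchyBound hq0
    have h3 : cauchyBound (p.map (Int.castRingHom ℂ)) ≤ (Z : NNReal) + 1 := by
      unfold cauchyBound
      have h4 : (p.map (Int.castRingHom ℂ)).leadingCoeff = (a : ℂ) := by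
        rw [leadingCoeff_map_of_injective Int.cast_injective, ← ha]
        rfl
      rw [h4]
      refine add_le_add ?_ le_rfl
      have h5 : (1 : NNReal) ≤ ‖(a : ℂ)‖₊ := by
        rw [← NNReal.coe_le_coe]
        push_cast
        rw [Complex.norm_intCast]
        exact_mod_cast Int.one_le_abs ha0
      refine (div_le_self zero_le h5).trans ?_
      refine Finset.sup_le fun j _ => ?_
      rw [← NNReal.coe_le_coe, coeff_map]
      push_cast
      show ‖((p.coeff j : ℤ) : ℂ)‖ ≤ _
      rw [Complex.norm_intCast]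
      exact_mod_cast hle j
    have h6 : ‖v.embedding x‖ ≤ (Z : ℝ) + 1 := by
      have h7 : (cauchyBound (p.map (Int.castRingHom ℂ)) : ℝ) ≤ ((Z : NNReal) + 1 : NNReal) :=
        NNReal.coe_le_coe.2 h3
      push_cast at h7
      linarith
    linarith
  obtain ⟨y, hy⟩ : ∃ y : Fin 2 → 𝓞 K, y = ![⟨(a : K) * x, hint⟩, (a : 𝓞 K)] := ⟨_, rfl⟩
  have hyK : (fun i => ((y i : 𝓞 K) : K)) = (a : K) • ![x, 1] := by
    funext i
    rw [hy]
    fin_cases i
    · show (a : K) * x = (a : K) * x
      rfl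
    · show ((a : 𝓞 K) : K) = (a : K) * 1
      rw [mul_one]
      exact map_intCast _ _
  have hy0 : y ≠ 0 := by
    intro h
    have h1 := congrFun h 1
    rw [hy] at h1
    simp at h1
    exact ha0 h1
  have hyK0 : (fun i => ((y i : 𝓞 K) : K)) ≠ 0 := by
    intro h
    apply hy0
    funext i
    have := congrFun h i
    simpa using this
  rw [mulHeight₁_eq_mulHeight, ← mulHeight_smul_eq_mulHeight _ haK, ← hyK, NumberField.mulHeight_eq hyK0]
  have hfin : ∏ᶠ v : FinitePlace K, ⨆ i, v ((y i : 𝓞 K) : K) ≤ 1 := by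
    have h1 := absNorm_mul_finprod_finitePlace_eq_one hy0
    obtain ⟨A, hA⟩ : ∃ A, A = (Ideal.span (Set.range y)).absNorm := ⟨_, rfl⟩
    obtain ⟨B, hB⟩ : ∃ B, B = ∏ᶠ v : FinitePlace K, ⨆ i, v ((y i : 𝓞 K) : K) := ⟨_, rfl⟩
    rw [← hA, ← hB] at h1
    rw [← hB]
    have h2 : (1 : ℝ) ≤ A := by
      have : A ≠ 0 := by
        rintro h
        rw [h] at h1
        simp at h1
      exact_mod_cast Nat.one_le_iff_ne_zero.2 this
    by_contra h3
    push Not at h3
    nlinarith
  have hfin0 : 0 ≤ ∏ᶠ v : FinitePlace K, ⨆ i, v ((y i : 𝓞 K) : K) :=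
    finprod_nonneg fun v => Real.iSup_nonneg fun i => apply_nonneg v _
  have hinf : ∏ v : InfinitePlace K, (⨆ i, v ((y i : 𝓞 K) : K)) ^ v.mult ≤
      (2 * (Z : ℝ) ^ 2) ^ (Module.finrank ℚ K) := by
    rw [← InfinitePlace.sum_mult_eq, ← Finset.prod_pow_eq_pow_sum]
    refine Finset.prod_le_prod (fun v _ => by
      have : 0 ≤ ⨆ i, v ((y i : 𝓞 K) : K) := Real.iSup_nonneg fun i => apply_nonneg v _
      positivity) fun v _ => ?_
    refine pow_le_pow_left₀ (Real.iSup_nonneg fun i => apply_nonneg v _) ?_ _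
    refine ciSup_le fun i => ?_
    have h1 : v ((y i : 𝓞 K) : K) = v (a : K) * v (![x, 1] i) := by
      have := congrFun hyK i
      rw [this, Pi.smul_apply, smul_eq_mul, map_mul]
    rw [h1, hva]
    have h2 : v (![x, 1] i) ≤ 2 * Z := by
      fin_cases i
      · exact hvx v
      · simp
        linarith
    calc |(a : ℝ)| * v (![x, 1] i) ≤ Z * (2 * Z) :=
          mul_le_mul haZ h2 (apply_nonneg v _) (by positivity)
      _ = 2 * (Z : ℝ) ^ 2 := by ring
  calc _ ≤ (2 * (Z : ℝ) ^ 2) ^ (Module.finrank ℚ K) * 1 :=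
        mul_le_mul hinf hfin hfin0 (by positivity)
    _ = _ := mul_one _

end Pool.Agent.W347.GE
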